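import Pool.Agent.Helper95.HV.Main

/-!
# The noncommutative variational Hodge conjecture and Euler characteristics of hypersurface complements

The notation is as in `MP_298761_ag.UnionsOfTwoAffineSpaces`: `K` is an algebraic closure of `ℂ(t)` (the
theorem is stated for a field of characteristic zero, with the data below), embedded in the field of germs of
analytic functions on the real intervals `(0, ε)`, and `H^{2i}(X) = H^{2i}(X_t, ℚ)(i)`, `0 < t < ε`, for the
smooth projective schemes `X` over `K`. The families are the smooth projective morphisms `𝒳 → S` to smooth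
connected complex curves `S` with an embedding of `ℂ(S)` in `K`, with the geometric generic fibre `X`. For `i`
and `d` and a Chow motive `N` over `K`, `T(N)` (`T_{i,d}(N)`) is the subspace of `H(N) / cl(CH(N))` spanned by
the images `f_*(φ)` of the flat classes `φ ∈ H^{2i}(X)` which are algebraic at one point, for the families
`𝒳 → S` of relative dimension at most `d`, under all correspondences `f : h(X)(i) → N`. It is an additive
functor.

For a separated scheme `X` of finite type over `K` let `W(X)` be its weight complex with compact supports. If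
the spaces `H^c(T_{i,d}(W(X)(i)))` have finite dimension and almost all of them are zero (`HasChi`), let
`e(X) = e_{i,d}(X)` be their Euler characteristic (`euler`). Nothing is known about these dimensions.

We look at the principal open subsets `D(F) : F ≠ 0` of the affine spaces over `K`.

**Theorem.** (1) For all `i`, `d` and `n ≥ 1` the following are equivalent: the variational Hodge conjecture
is true for the flat classes of degree `2i` on all families of relative dimension at most `d`; the numbers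
`e(D(F))`, `F ∈ K[x_1, …, x_(d+n)]`, are defined and `o((deg F)^n)`.

(2) It is also equivalent that they are defined and `≤ o((deg F)^n)` for the polynomials in `d + n` and in
`d + n + 1` variables, and to the same for `-e(D(F))`.

(3) It is also equivalent to the existence of one-sided bounds `e(D(F)) ≤ o((deg F)^(r - s))` for all `s`,
all `r ≥ r₀(s)` and all `F ∈ K[x_1, …, x_r]`, and to the existence of such bounds for `-e(D(F))`.

(4) For all `d` and `n ≥ 1`, question Q1 is true for all families of relative dimension at most `d` and all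
admissible subcategories if and only if for all `i` the numbers `e_{i,d}(D(F))`, `F ∈ K[x_1, …, x_(d+n)]`, are
defined and `o((deg F)^n)`.
-/

set_option autoImplicit false
set_option linter.checkUnivs false

open CategoryTheory Limits AlgebraicGeometry Pool.Agent.Y116.UV Pool.Agent.Q282.UM
  Pool.Agent.Q282.UK Pool.Agent.Helper24.KD Pool.Agent.Helper24.KF Pool.Agent.Helper95.HV

open Pool.Agent.Helper24.KE (Both Upper zero_of_both zero_of_upper zero_of_all size_deg)

universe v u

namespace Pool.Agent.Results.MP_298761_ag.EulerCharacteristics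

variable {K : Type} [Field K] {M : Mot.{v, u} K} (Fam : Set (Family M))

/-- The principal open subset `D(F) : F ≠ 0` of the affine space over `K`. -/
noncomputable def princ {r : ℕ} (F : MvPolynomial (Fin r) K) : Sch K := aff K (Localization.Away F)

/-- The Euler characteristic is defined. -/
def HasChi (i : ℤ) (d : ℕ) (X : Sch K) : Prop := FinCoh (TF Fam i d) (M.wt i X)

/-- The Euler characteristic `e(X)` of the spaces `H^c(T_{i,d}(W(X)(i)))`. -/
noncomputable def euler (i : ℤ) (d : ℕ) (X : Sch K) : ℤ := chi (TF Fam i d) (M.wt i X)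

/-- The numbers `e(D(F))`, `F ∈ K[x_1, …, x_r]`, are defined and satisfy `R (e) ≤ o((deg F)^n)`, where
`R c` is `|c|`, `c` or `-c`. -/
def Bound (R : ℤ → ℤ) (i : ℤ) (d r n : ℕ) : Prop :=
  ∀ ε : ℝ, 0 < ε → ∃ B : ℝ, ∀ F : MvPolynomial (Fin r) K, HasChi Fam i d (princ F) ∧
    (R (euler Fam i d (princ F)) : ℝ) ≤ ε * (F.totalDegree : ℝ) ^ n + B

/-- The variational Hodge conjecture; upper bounds for the Euler characteristics; lower bounds. -/
def Forms (i : ℤ) (d : ℕ) : List Prop :=
  [VHCDim Fam i d,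
    ∀ s : ℕ, ∃ r₀ : ℕ, ∀ r, r₀ ≤ r → Bound Fam id i d r (r - s),
    ∀ s : ℕ, ∃ r₀ : ℕ, ∀ r, r₀ ≤ r → Bound Fam Neg.neg i d r (r - s)]

/-- The Euler characteristic is defined and is `c`. -/
def Q (i : ℤ) (d : ℕ) : Sch K → ℤ → Prop := QT (TOne (TF Fam i d)) M.D i

lemma Q_iff (i : ℤ) (d : ℕ) (X : Sch K) (c : ℤ) :
    Q Fam i d X c ↔ HasChi Fam i d X ∧ euler Fam i d X = c := tOne_iff

variable {Fam}

lemma to_both {i : ℤ} {d r n : ℕ} (h : Bound Fam abs i d r n) :
    Both (fun _ F => (F.totalDegree : ℝ)) (Q Fam i d) r n := by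
  intro ε hε
  obtain ⟨B, hB⟩ := h ε hε
  refine ⟨B, fun F => ⟨_, (Q_iff Fam i d _ _).mpr ⟨(hB F).1, rfl⟩, ?_⟩⟩
  have h1 := (hB F).2
  rwa [Int.cast_abs] at h1

lemma to_upper {i : ℤ} {d r n : ℕ} (h : Bound Fam id i d r n) :
    Upper (fun _ F => (F.totalDegree : ℝ)) (Q Fam i d) r n := by
  intro ε hε
  obtain ⟨B, hB⟩ := h ε hε
  exact ⟨B, fun F => ⟨_, (Q_iff Fam i d _ _).mpr ⟨(hB F).1, rfl⟩, (hB F).2⟩⟩

lemma to_lower {i : ℤ} {d r n : ℕ} (h : Bound Fam Neg.neg i d r n) :
    Upper (fun _ F => (F.totalDegree : ℝ)) (fun X c => Q Fam i d X (-c)) r n := by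
  intro ε hε
  obtain ⟨B, hB⟩ := h ε hε
  refine ⟨B, fun F => ⟨-euler Fam i d (princ F), ?_, (hB F).2⟩⟩
  change Q Fam i d (princ F) (- -euler Fam i d (princ F))
  rw [neg_neg]
  exact (Q_iff Fam i d _ _).mpr ⟨(hB F).1, rfl⟩

variable (hM : Known M)

include hM

lemma dfc (i : ℤ) (d : ℕ) : Pool.Agent.Helper24.KE.Dfc True (Q Fam i d) :=
  dfcT (tOne _) hM.weight i

lemma space (i : ℤ) (d n : ℕ) : Q Fam i d (aff K (MvPolynomial (Fin n) K)) 0 := by
  refine spaceT (tOne _) hM.weight (fun j => ?_) i n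
  refine one_zero hM.weight (N := 0) (points_zero hM i d j) _ (ft_aff True) ?_
  rw [Pool.Agent.Z125.UN.topDim_aff, ringKrullDim_eq_zero_of_field]
  exact le_rfl

lemma to_bound {i : ℤ} {d : ℕ} (h : VHCDim Fam i d) {R : ℤ → ℤ} (hR : R 0 = 0) (r n : ℕ) :
    Bound Fam R i d r n := by
  refine fun ε hε => ⟨0, fun F => ?_⟩
  obtain ⟨N, hN⟩ := Pool.Agent.Helper24.KZ.exists_dim_aff (k := K) (Localization.Away F)
  have h0 : Q Fam i d (princ F) 0 :=
    one_zero hM.weight (fun Y _ _ => t_zero h _) _ (ft_aff True) hN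
  obtain ⟨h1, h2⟩ := (Q_iff Fam i d _ _).mp h0
  refine ⟨h1, ?_⟩
  rw [h2, hR, Int.cast_zero, add_zero]
  positivity

lemma vhc_of {i : ℤ} {d : ℕ} (h : ∀ X : Sch K, FT True X → topologicalKrullDim X.left ≤ d →
    Q Fam i d X 0) : VHCDim Fam i d := by
  refine of_zero fun Y hY hd => ?_
  obtain ⟨h1, h2⟩ := one_inZero.mp (projT (tOne (TF Fam i d)) hM.weight hY
    (h Y (ft_projective hY) hd))
  exact Module.finrank_zero_iff.mp (by exact_mod_cast h2)

variable [CharZero K]

lemma abs_iff {i : ℤ} {d n : ℕ} (hn : 1 ≤ n) :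
    VHCDim Fam i d ↔ Bound Fam abs i d (d + n) n := by
  refine ⟨fun h => to_bound hM h abs_zero _ _, fun h => vhc_of hM fun X hX hd => ?_⟩
  obtain ⟨n, rfl⟩ : ∃ n', n = n' + 1 := ⟨n - 1, by omega⟩
  exact zero_of_both (dfc hM i d) (space hM i d) size_deg (to_both h) X hX hd

lemma dfc_neg (i : ℤ) (d : ℕ) :
    Pool.Agent.Helper24.KE.Dfc True (fun X c => Q Fam i d X (-c)) := (dfc hM i d).neg

lemma space_neg (i : ℤ) (d n : ℕ) : Q Fam i d (aff K (MvPolynomial (Fin n) K)) (-0) := by
  rw [neg_zero]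
  exact space hM i d n

lemma one_iff {i : ℤ} {d n : ℕ} (hn : 1 ≤ n) {R : ℤ → ℤ} (hR : R = id ∨ R = Neg.neg) :
    VHCDim Fam i d ↔ Bound Fam R i d (d + n) n ∧ Bound Fam R i d (d + n + 1) n := by
  have h0 : R 0 = 0 := by rcases hR with rfl | rfl <;> rfl
  refine ⟨fun h => ⟨to_bound hM h h0 _ _, to_bound hM h h0 _ _⟩, fun h => ?_⟩
  obtain ⟨n, rfl⟩ : ∃ n', n = n' + 1 := ⟨n - 1, by omega⟩
  refine vhc_of hM fun X hX hd => ?_
  rcases hR with rfl | rfl
  · exact zero_of_upper (dfc hM i d) (space hM i d) size_deg (to_upper h.1) (to_upper h.2) X hX hd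
  · have h1 := zero_of_upper (dfc_neg hM i d) (space_neg hM i d) size_deg (to_lower h.1)
      (to_lower h.2) X hX hd
    rwa [neg_zero] at h1

lemma all_of {i : ℤ} {d : ℕ} {R : ℤ → ℤ} (hR : R = id ∨ R = Neg.neg)
    (h : ∀ s : ℕ, ∃ r₀ : ℕ, ∀ r, r₀ ≤ r → Bound Fam R i d r (r - s)) : VHCDim Fam i d := by
  refine vhc_of hM fun X hX hd => ?_
  rcases hR with rfl | rfl
  · exact zero_of_all (dfc hM i d) (space hM i d) size_deg (fun s => by
      obtain ⟨r₀, hr⟩ := h s
      exact ⟨r₀, fun r h1 => to_upper (hr r h1)⟩) d X hX hd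
  · have h1 := zero_of_all (dfc_neg hM i d) (space_neg hM i d) size_deg (fun s => by
      obtain ⟨r₀, hr⟩ := h s
      exact ⟨r₀, fun r h1 => to_lower (hr r h1)⟩) d X hX hd
    rwa [neg_zero] at h1

theorem forms_tfae (i : ℤ) (d : ℕ) : (Forms Fam i d).TFAE := by
  unfold Forms
  have hto : VHCDim Fam i d → ∀ R : ℤ → ℤ, R 0 = 0 →
      ∀ s : ℕ, ∃ r₀ : ℕ, ∀ r, r₀ ≤ r → Bound Fam R i d r (r - s) :=
    fun h R hR s => ⟨0, fun r _ => to_bound hM h hR _ _⟩
  tfae_have 1 → 2 := fun h => hto h id rfl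
  tfae_have 1 → 3 := fun h => hto h Neg.neg neg_zero
  tfae_have 2 → 1 := fun h => all_of hM (Or.inl rfl) h
  tfae_have 3 → 1 := fun h => all_of hM (Or.inr rfl) h
  tfae_finish

omit hM in
/-- **The noncommutative variational Hodge conjecture and Euler characteristics of hypersurface
complements.** See the explanations above. -/
theorem result (K : Type) [Field K] [CharZero K] (M : Mot.{v, u} K) (hM : Known M)
    (Fam : Set (Family M)) :
    -- (1) two-sided bounds
    (∀ (i : ℤ) (d n : ℕ), 1 ≤ n → (VHCDim Fam i d ↔ Bound Fam abs i d (d + n) n)) ∧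
    -- (2) one-sided bounds
    (∀ (i : ℤ) (d n : ℕ), 1 ≤ n → ∀ R : ℤ → ℤ, (R = id ∨ R = Neg.neg) →
      (VHCDim Fam i d ↔ Bound Fam R i d (d + n) n ∧ Bound Fam R i d (d + n + 1) n)) ∧
    -- (3) all numbers of variables
    (∀ (i : ℤ) (d : ℕ), (Forms Fam i d).TFAE) ∧
    -- (4) question Q1
    ∀ d n : ℕ, 1 ≤ n → (ConjDim Fam d ↔ ∀ i : ℤ, Bound Fam abs i d (d + n) n) := by
  refine ⟨fun i d n hn => abs_iff hM hn, fun i d n hn R hR => one_iff hM hn hR,
    fun i d => forms_tfae hM i d, fun d n hn => ?_⟩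
  rw [conj_iff]
  exact forall_congr' fun i => abs_iff hM hn

end Pool.Agent.Results.MP_298761_ag.EulerCharacteristics
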