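import Pool.Agent.Helper96.VH.Full
import Pool.Agent.Helper96.VH.Trans
import Pool.Graph.R_pool_sql_team_seeded_ab47071d.TH90.Kim.Light

/-!
# The noncommutative variational Hodge conjecture for endomorphisms descends from Schur powers

Let `S` be the base, `s` and `0` two points of `S`. `𝒜` and `ℬ` are the categories of noncommutative
motives of the fibres over `s` and over `0` (`ℚ`-linear symmetric monoidal categories with duals, the
morphisms are given by the rational `K₀` of the bimodules), and `F`, `F'` are the realisations by the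
topological K-theory with coefficients in `K = ℚ` (symmetric monoidal functors to super vector
spaces, `SuperRealisation`).

`TwoFibres`, `IsRelative`: an `S`-linear category `𝒞` (or a relative motive) seen from the two
points: the fibres `A = 𝒞_s`, `B = 𝒞_0`, the parallel transport `tr` from `K^top (𝒞_s)` to
`K^top (𝒞_0)` along a path, with its inverse `inv`, and the monodromy operators `mon g` on
`K^top (𝒞_s)`, all linear, `tr` and `mon g` compatible with the parity. The even operators
`y` on `K^top (𝒞_s)` which commute with the monodromy are the flat sections of the local system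
`K₀^top (𝒞^op ⊠ 𝒞 / S)`, and `IsAlgebraic` means that the class is algebraic. So
`VariationalHodge R` is the question Q1 for the `S`-linear category `𝒞^op ⊠_S 𝒞` and the points `0`
and `s`: a flat section which is algebraic at `0` is algebraic at `s`.

`IsSchurPart e R R'`: `R'` is the direct summand of the `n`-th tensor power of `R` cut out by the
element `e` of the group algebra of the symmetric group, at both points, with the induced parallel
transport and monodromy; for instance the Schur power `S_λ` for a partition `λ` of `n`.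

Theorem. Let `R'` be such a part of the `n`-th tensor power of `R`, `n ≥ 1`, not zero in the
realisation. Suppose that the parity operator of the fibre of `R'` at `0` is algebraic (the sign
conjecture for this fibre), and that `K^top` of the fibre of `R` has a non-zero even and a non-zero
odd part or that its dimension does not divide `n`. If Q1 (for `0`, `s`) is true for the
endomorphisms of `R'`, then it is true for the endomorphisms of `R`.

Proof. Let `y` be a flat even operator on `V (A)` which is algebraic at `0`. By the rule of Leibniz it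
induces an operator on the tensor power and on `V (D)`, `D` the fibre of `R'`; this operator is flat
and algebraic at `0`, so it is algebraic at `s`, and the same is true for the parity of `D`. Compose
it with the parity and with `e^*`, take the sum of the conjugates under the symmetric group, and
contract `n - 1` factors. The result is algebraic, and it is `α y + c` on the even part of `V (A)`
and `α' y + c'` on the odd part, with numbers `α`, `c`, `α'`, `c'`. Here `α` is up to a positive
factor the sum over the words `w` in a basis of `V (A)` of `q w * (m w - m' w) ^ 2` where `q w` is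
the norm of `e w` for a positive definite form and `m w`, `m' w` are the numbers of two fixed letters
of the same parity in `w`; it is not zero. For `y = 1` one finds that the parity of `A` is algebraic.
So `y` is algebraic.
-/

open CategoryTheory MonoidalCategory Limits BraidedCategory

universe u v w u' v'

namespace Pool.Agent.Results.MP_298761_ag.SchurPowers

open Pool.Agent.TH90.AB Pool.Agent.TH90.Kim Pool.Agent.Helper96.Kim Pool.Agent.Helper96.SP

noncomputable section

section defs

variable {𝒜 : Type u} [Category.{v} 𝒜] [MonoidalCategory 𝒜] {ℬ : Type u'} [Category.{v'} ℬ]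
  [MonoidalCategory ℬ] {K : Type w} [Field K]

/-- The operator `y` on the realisation of `A` is a `K`-linear combination of the operators given by
the endomorphisms of `A`. -/
def IsAlgebraic (F : RealData 𝒜 K) (A : 𝒜) (y : F.V A → F.V A) : Prop :=
  y ∈ Submodule.span K (Set.range fun f : A ⟶ A => (F.map f : F.V A → F.V A))

/-- A relative object seen from two points: its fibres, the parallel transport and its inverse, and
the monodromy. -/
structure TwoFibres (F : RealData 𝒜 K) (F' : RealData ℬ K) (Γ : Type) where
  A : 𝒜
  B : ℬ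
  tr : F.V A → F'.V B
  inv : F'.V B → F.V A
  mon : Γ → F.V A → F.V A

/-- The parallel transport is linear. -/
structure TwoFibres.Linear {F : RealData 𝒜 K} {F' : RealData ℬ K} {Γ : Type}
    (R : TwoFibres F F' Γ) : Prop where
  add : ∀ x y, R.tr (x + y) = R.tr x + R.tr y
  smul : ∀ (c : K) (x), R.tr (c • x) = c • R.tr x

/-- `inv` is the inverse of the parallel transport. -/
structure TwoFibres.Inverse {F : RealData 𝒜 K} {F' : RealData ℬ K} {Γ : Type}
    (R : TwoFibres F F' Γ) : Prop where
  left : ∀ x, R.inv (R.tr x) = x
  right : ∀ x, R.tr (R.inv x) = x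

/-- The monodromy operators are linear. -/
structure TwoFibres.MonLinear {F : RealData 𝒜 K} {F' : RealData ℬ K} {Γ : Type}
    (R : TwoFibres F F' Γ) : Prop where
  add : ∀ g x y, R.mon g (x + y) = R.mon g x + R.mon g y
  smul : ∀ g (c : K) (x), R.mon g (c • x) = c • R.mon g x

/-- The parallel transport and the monodromy preserve the parity. -/
structure TwoFibres.Even {F : RealData 𝒜 K} {F' : RealData ℬ K} {Γ : Type}
    (R : TwoFibres F F' Γ) : Prop where
  tr : ∀ x, R.tr (F.par x) = F'.par (R.tr x)
  mon : ∀ g x, R.mon g (F.par x) = F.par (R.mon g x)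

/-- The parallel transport and the monodromy of a relative object are linear isomorphisms and
linear operators preserving the parity. -/
structure IsRelative {F : RealData 𝒜 K} {F' : RealData ℬ K} {Γ : Type}
    (R : TwoFibres F F' Γ) : Prop where
  lin : R.Linear
  inv : R.Inverse
  monlin : R.MonLinear
  even : R.Even

/-- The operator `y` is even and commutes with the monodromy. -/
structure IsFlat {F : RealData 𝒜 K} {F' : RealData ℬ K} {Γ : Type} (R : TwoFibres F F' Γ)
    (y : F.V R.A → F.V R.A) : Prop where
  par : ∀ x, F.par (y x) = y (F.par x)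
  mon : ∀ g x, y (R.mon g x) = R.mon g (y x)

/-- Q1 for the endomorphisms of a relative object: an even operator which commutes with the
monodromy and is algebraic at the second point is algebraic at the first point. -/
def VariationalHodge {F : RealData 𝒜 K} {F' : RealData ℬ K} {Γ : Type}
    (R : TwoFibres F F' Γ) : Prop :=
  ∀ y : F.V R.A → F.V R.A, IsFlat R y → IsAlgebraic F' R.B (fun x => R.tr (y (R.inv x))) →
    IsAlgebraic F R.A y

/-- The exterior product of `n` elements, in the `n`-th tensor power. -/
def word (F : RealData 𝒜 K) {M : 𝒜} : ∀ n : ℕ, (Fin n → F.V M) → F.V (T M n)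
  | 0 => fun _ => F.one
  | n + 1 => fun v => F.ext (word F n fun j => v j.succ) (v 0)

end defs

section schur

variable {𝒜 : Type u} [Category.{v} 𝒜] [MonoidalCategory 𝒜] [SymmetricCategory 𝒜]
  [Preadditive 𝒜] [Linear ℚ 𝒜] {ℬ : Type u'} [Category.{v'} ℬ] [MonoidalCategory ℬ]
  [SymmetricCategory ℬ] [Preadditive ℬ] [Linear ℚ ℬ] {K : Type w} [Field K]

/-- `D` is the direct summand of the tensor power `T M n` cut out by the image of the element `e` of
the group algebra of the symmetric group. -/
structure Part {n : ℕ} (e : QS n) (M D : 𝒜) where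
  i : D ⟶ T M n
  r : T M n ⟶ D
  split : i ≫ r = 𝟙 D
  cut : ∃ φ : Fam M, PA φ ∧ r ≫ i = rh φ n e

/-- The image in `V (D)` of the exterior product of `n` elements of `V (M)`. -/
def Part.elt (F : RealData 𝒜 K) {n : ℕ} {e : QS n} {M D : 𝒜} (P : Part e M D)
    (v : Fin n → F.V M) : F.V D := F.map P.r (word F n v)

/-- The parallel transport of `R'` is induced by the one of `R`. -/
def InducedTr {F : RealData 𝒜 K} {F' : RealData ℬ K} {Γ : Type} {n : ℕ} {e : QS n}
    {R R' : TwoFibres F F' Γ} (P : Part e R.A R'.A) (P' : Part e R.B R'.B) : Prop :=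
  ∀ v, R'.tr (P.elt F v) = P'.elt F' fun j => R.tr (v j)

/-- The monodromy of `R'` is induced by the one of `R`. -/
def InducedMon {F : RealData 𝒜 K} {F' : RealData ℬ K} {Γ : Type} {n : ℕ} {e : QS n}
    {R R' : TwoFibres F F' Γ} (P : Part e R.A R'.A) : Prop :=
  ∀ g v, R'.mon g (P.elt F v) = P.elt F fun j => R.mon g (v j)

/-- `R'` is the part of the `n`-th tensor power of `R` cut out by `e`, with the induced parallel
transport and monodromy. -/
def IsSchurPart {F : RealData 𝒜 K} {F' : RealData ℬ K} {Γ : Type} {n : ℕ} (e : QS n)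
    (R R' : TwoFibres F F' Γ) : Prop :=
  ∃ (P : Part e R.A R'.A) (P' : Part e R.B R'.B),
    InducedTr (R := R) (R' := R') P P' ∧ InducedMon (R := R) (R' := R') P

/-- The realisation of `R` has a non-zero even and a non-zero odd part, or its dimension does not
divide `n`. -/
def IsLarge {F : RealData 𝒜 K} {F' : RealData ℬ K} {Γ : Type} (n : ℕ)
    (R : TwoFibres F F' Γ) : Prop :=
  ((∃ x : F.V R.A, x ≠ 0 ∧ F.par x = x) ∧ ∃ x : F.V R.A, x ≠ 0 ∧ F.par x = -x) ∨
    ¬ Module.finrank K (F.V R.A) ∣ n

/-- `R'` is not zero in the realisation and the parity operator of its fibre at `0` is algebraic. -/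
structure HasSign {F : RealData 𝒜 K} {F' : RealData ℬ K} {Γ : Type}
    (R' : TwoFibres F F' Γ) : Prop where
  ne : ∃ x : F.V R'.A, x ≠ 0
  sign : IsAlgebraic F' R'.B F'.par

end schur

section proof

variable {𝒜 : Type u} [Category.{v} 𝒜] [MonoidalCategory 𝒜] [SymmetricCategory 𝒜]
  [Preadditive 𝒜] [MonoidalPreadditive 𝒜] [Linear ℚ 𝒜] [MonoidalLinear ℚ 𝒜]
  {K : Type w} [Field K] [CharZero K]

lemma word_eq (F : SuperRealisation 𝒜 K) {M : 𝒜} : ∀ (n : ℕ) (v : Fin n → F.V M),
    word F.toRealData n v = wd F.toReal n v
  | 0, _ => rfl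
  | n + 1, v => by
    change F.ext (word F.toRealData n fun j => v j.succ) (v 0) =
      F.ext (wd F.toReal n fun j => v j.succ) (v 0)
    rw [word_eq F n]

lemma toAlg (F : SuperRealisation 𝒜 K) {M : 𝒜} {p : F.V M → F.V M}
    (hp : IsAlgebraic F.toRealData M p) : ∃ q ∈ AlgOp F.toReal M, ∀ x, q x = p x := by
  unfold IsAlgebraic at hp
  induction hp using Submodule.span_induction with
  | mem p hp =>
    obtain ⟨f, rfl⟩ := hp
    exact ⟨F.toReal.map f, Submodule.subset_span ⟨f, rfl⟩, fun x => rfl⟩
  | zero => exact ⟨0, zero_mem _, fun x => rfl⟩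
  | add p p' _ _ h h' =>
    obtain ⟨q, hq, hqp⟩ := h
    obtain ⟨q', hq', hqp'⟩ := h'
    refine ⟨q + q', add_mem hq hq', fun x => ?_⟩
    rw [LinearMap.add_apply, hqp, hqp']
    rfl
  | smul c p _ h =>
    obtain ⟨q, hq, hqp⟩ := h
    refine ⟨c • q, Submodule.smul_mem _ _ hq, fun x => ?_⟩
    rw [LinearMap.smul_apply, hqp]
    rfl

lemma ofAlg (F : SuperRealisation 𝒜 K) {M : 𝒜} {q : F.toReal.V M →ₗ[K] F.toReal.V M}
    (hq : q ∈ AlgOp F.toReal M) : IsAlgebraic F.toRealData M q := by
  unfold AlgOp at hq
  unfold IsAlgebraic
  induction hq using Submodule.span_induction with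
  | mem p hp =>
    obtain ⟨f, rfl⟩ := hp
    exact Submodule.subset_span ⟨f, rfl⟩
  | zero => exact zero_mem _
  | add p p' _ _ h h' => exact add_mem h h'
  | smul c p _ h => exact Submodule.smul_mem _ c h

end proof

/-- Relative objects, for two super realisations. -/
def Rel {𝒜 : Type u} [Category.{v} 𝒜] [MonoidalCategory 𝒜] [SymmetricCategory 𝒜]
    [Preadditive 𝒜] [Linear ℚ 𝒜] {ℬ : Type u'} [Category.{v'} ℬ] [MonoidalCategory ℬ]
    [SymmetricCategory ℬ] [Preadditive ℬ] [Linear ℚ ℬ] {K : Type w} [Field K]
    (F : SuperRealisation 𝒜 K) (F' : SuperRealisation ℬ K) (Γ : Type) :=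
  TwoFibres F.toRealData F'.toRealData Γ

open Pool.Agent.Helper96.VH Pool.Agent.Helper96.VH.TRANS in
/-- If the variational Hodge conjecture (for two points) is true for the endomorphisms of a Schur
part `R'` of a tensor power of `R`, and the parity of the fibre of `R'` at `0` is algebraic, then it
is true for the endomorphisms of `R`. -/
theorem result {𝒜 : Type u} [Category.{v} 𝒜] [MonoidalCategory 𝒜] [SymmetricCategory 𝒜]
    [Preadditive 𝒜] [MonoidalPreadditive 𝒜] [Linear ℚ 𝒜] [MonoidalLinear ℚ 𝒜]
    [∀ X : 𝒜, HasRightDual X] {ℬ : Type u'} [Category.{v'} ℬ] [MonoidalCategory ℬ]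
    [SymmetricCategory ℬ] [Preadditive ℬ] [MonoidalPreadditive ℬ] [Linear ℚ ℬ]
    [MonoidalLinear ℚ ℬ] [∀ X : ℬ, HasRightDual X] {K : Type w} [Field K] [CharZero K]
    (F : SuperRealisation 𝒜 K) (F' : SuperRealisation ℬ K) {Γ : Type}
    (R R' : Rel F F' Γ) (hr : IsRelative R) (hr' : IsRelative R') {n : ℕ} (hn : 1 ≤ n)
    (e : QS n) (hR : IsSchurPart e R R') (hs : HasSign R') (hc : IsLarge n R) (h : VariationalHodge R') : VariationalHodge R := by
  obtain ⟨n, rfl⟩ : ∃ k, n = k + 1 := ⟨n - 1, by omega⟩
  obtain ⟨⟨i, r, hir, φ, hφ, hri⟩, ⟨i', r', hir', φ', hφ', hri'⟩, htr, hmon⟩ := hR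
  obtain ⟨h0, hsign⟩ := hs
  intro y hyf halg
  let trE : F.toReal.V R.A ≃ₗ[K] F'.toReal.V R.B :=
    { toFun := R.tr, map_add' := hr.lin.add, map_smul' := hr.lin.smul, invFun := R.inv,
      left_inv := hr.inv.left, right_inv := hr.inv.right }
  let trE' : F.toReal.V R'.A ≃ₗ[K] F'.toReal.V R'.B :=
    { toFun := R'.tr, map_add' := hr'.lin.add, map_smul' := hr'.lin.smul, invFun := R'.inv,
      left_inv := hr'.inv.left, right_inv := hr'.inv.right }
  let monE : Γ → F.toReal.V R.A →ₗ[K] F.toReal.V R.A := fun g =>
    { toFun := R.mon g, map_add' := hr.monlin.add g, map_smul' := hr.monlin.smul g }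
  let monE' : Γ → F.toReal.V R'.A →ₗ[K] F.toReal.V R'.A := fun g =>
    { toFun := R'.mon g, map_add' := hr'.monlin.add g, map_smul' := hr'.monlin.smul g }
  obtain ⟨p, hp, hpx⟩ := toAlg F' halg
  -- `y` is linear
  let yE : F.toReal.V R.A →ₗ[K] F.toReal.V R.A :=
    (trE.symm : F'.toReal.V R.B →ₗ[K] F.toReal.V R.A) ∘ₗ p ∘ₗ
      (trE : F.toReal.V R.A →ₗ[K] F'.toReal.V R.B)
  have hyE : ∀ x, yE x = y x := by
    intro x
    have h1 : p (R.tr x) = R.tr (y (R.inv (R.tr x))) := hpx (R.tr x)
    have h2 : R.inv (p (R.tr x)) = y x :=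
      (congrArg R.inv h1).trans ((hr.inv.left _).trans (congrArg y (hr.inv.left x)))
    exact h2
  have hyf' : (yE : F.toReal.V R.A → F.toReal.V R.A) = y := funext hyE
  have key := descent (F := F.toReal) (F' := F'.toReal) trE trE' monE monE' hr.even.tr
    hr'.even.tr hr'.even.mon e i r i' r' hir hir' hφ hri hφ' hri' (by
      intro v
      have h1 := htr v
      have h2 := word_eq F (n + 1) v
      have h3 := word_eq F' (n + 1) (fun j => R.tr (v j))
      exact ((congrArg (fun x => R'.tr (F.map r x)) h2).symm.trans h1).trans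
        (congrArg (fun x => F'.map r' x) h3)) (by
      intro g v
      have h1 := hmon g v
      have h2 := word_eq F (n + 1) v
      have h3 := word_eq F (n + 1) (fun j => R.mon g (v j))
      exact ((congrArg (fun x => R'.mon g (F.map r x)) h2).symm.trans h1).trans
        (congrArg (fun x => F.map r x) h3)) h0 (by
      obtain ⟨q, hq, hqx⟩ := toAlg F' hsign
      have : F'.toReal.par R'.B = q := LinearMap.ext fun x => (hqx x).symm
      exact this ▸ hq) hc (by
      intro S hS1 hS2 hS3
      let S' : F'.toReal.V R'.B →ₗ[K] F'.toReal.V R'.B :=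
        (trE' : F.toReal.V R'.A →ₗ[K] F'.toReal.V R'.B) ∘ₗ S ∘ₗ
          (trE'.symm : F'.toReal.V R'.B →ₗ[K] F.toReal.V R'.A)
      have h1 := h S ⟨hS1, hS2⟩ (ofAlg F' (hS3 S' fun x => rfl))
      obtain ⟨q, hq, hqx⟩ := toAlg F h1
      have : S = q := LinearMap.ext fun x => (hqx x).symm
      exact this ▸ hq) yE (by
      intro x
      have h1 : F.par (yE x) = yE (F.par x) := by
        have h2 := hyE x
        have h3 := hyE (F.par x)
        have h4 := hyf.par x
        exact ((congrArg F.par h2).trans h4).trans h3.symm
      exact h1) (by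
      intro g x
      exact ((hyE (R.mon g x)).trans (hyf.mon g x)).trans (congrArg (R.mon g) (hyE x)).symm) (by
      intro y' hy'
      have : y' = p := by
        refine LinearMap.ext fun x => ?_
        refine (hy' x).trans ?_
        have h1 : R.tr (yE (R.inv x)) = R.tr (y (R.inv x)) := congrArg R.tr (hyE (R.inv x))
        exact h1.trans (hpx x).symm
      exact this ▸ hp)
  have h9 := ofAlg F key
  rw [hyf'] at h9
  exact h9

end

end Pool.Agent.Results.MP_298761_ag.SchurPowers
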