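import Pool.Agent.Helper95.HV.Main

/-!
# The noncommutative variational Hodge conjecture and unions of two affine spaces

Let `K` be an algebraic closure of `ℂ(t)` (the theorem is stated for a perfect field `K`, with the data
below). It is embedded in the field of germs of analytic functions on the
real intervals `(0, ε)`, `ε → 0`. So a smooth projective scheme `X` over `K` gives a family `X_t`, `t ∈ (0, ε)`,
and we denote by `H^{2i}(X)` the cohomology `H^{2i}(X_t, ℚ)(i)`, which does not depend on `t`. It extends to
Chow motives `N` over `K`: `H(N) = H^0(N)`, `H(h(X)(i)) = H^{2i}(X)`, with the cycle class map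
`cl : CH(N) → H(N)`, `CH(N) = Hom(1, N)`.

Let `f : 𝒳 → S` be a smooth projective morphism, `S` a smooth connected complex curve, with an embedding of
`ℂ(S)` in `K`, and let `X` be the geometric generic fibre. The global sections of the local system
`K_0^top(𝒳/S) ⊗ ℚ` are the families `φ = (φ_i)` of flat (monodromy invariant) classes `φ_i ∈ H^{2i}(X)`
(Chern character), and `φ` is algebraic at the point `s` of `S` if and only if all the `φ_i` are. For an
`S`-linear admissible subcategory `𝒞` of `D_perf(𝒳)` the sections of `K_0^top(𝒞/S) ⊗ ℚ` are the sections
`φ` which are fixed by the projection onto `𝒞`, and such a section is algebraic at `s` for `𝒞_s` if and only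
if it is algebraic at `s` for `D_perf(𝒳_s)` (apply the projection functor). Question Q1 for `𝒳` and `𝒞` says:
if `φ` is algebraic at one point then it is algebraic at all points. A flat class `φ_i` is algebraic at all
points if and only if it is in the image of the cycle class map of `X` (specialization of cycles, and the
countability of the Hilbert schemes).

For `i` and `d` and a Chow motive `N` over `K` let `T(N)` (`T_{i,d}(N)`) be the subspace of
`H(N) / cl(CH(N))` spanned by the images `f_*(φ)` of the flat classes `φ ∈ H^{2i}(X)` which are algebraic at
one point, for the families `𝒳 → S` of relative dimension at most `d`, under all correspondences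
`f : h(X)(i) → N`. It is an additive functor.

For a separated scheme `X` of finite type over `K` let `W(X)` be its weight complex with compact supports
(Gillet, Soulé). For a smooth `U` with a smooth projective compactification `X` such that `X - U` is a divisor
with simple normal crossings `D_1, …, D_s`, the complex `T(W(U)(i))` is
`T(h(X)(i)) → ⊕ T(h(D_a)(i)) → ⊕ T(h(D_a ∩ D_b)(i)) → …`.

For a polynomial `f ∈ K[x_1, …, x_N]` let `V_f` be the hypersurface `f = 0` (`hyper f`), which can be
singular, reducible and non-reduced, and let `S_f` be the hypersurface `t ^ 2 - t = y f(x)` in the affine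
space of dimension `N + 2` (`dbl f`).

**Theorem.** (1) `S_f` is smooth, affine and the union of two open subschemes isomorphic to the affine space
of dimension `N + 1`.

(2) The complex `T_{i,d}(W(S_f)(i + 1))` is exact if and only if `T_{i,d}(W(V_f)(i))` is; its cohomology has
finite total dimension and Euler characteristic zero if and only if that of the other has.

(3) For all `d` the following are equivalent: Q1 is true for all families of relative dimension at most `d`
and all admissible subcategories; the complexes `T_{i,d}(W(S_f)(i + 1))` are exact for all `i` and all `f` in
`d + 1` variables; their cohomology has finite total dimension and Euler characteristic zero for all `i` and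
all `f` in `d + 1` variables.

(4) For every `i` and `d` the corresponding equivalences hold for the variational Hodge conjecture for flat
classes of degree `2i` on the families of relative dimension at most `d`.

(5) Q1 is true for all families and all admissible subcategories if and only if the complexes
`T_{i,d}(W(X)(i + 1))` are exact for all `i`, `d` and all smooth affine schemes `X` over `K` which are unions
of two open subschemes isomorphic to an affine space.
-/

set_option autoImplicit false

open AlgebraicGeometry Pool.Agent.Y116.UV Pool.Agent.Q282.UM Pool.Agent.Helper95.HV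

open Pool.Agent.Helper95.WC (hyper dbl)

universe v u

namespace Pool.Agent.Results.MP_298761_ag.UnionsOfTwoAffineSpaces

/-- **The noncommutative variational Hodge conjecture and unions of two affine spaces.** See the explanations
above. -/
theorem result (K : Type) [Field K] [PerfectField K] (M : Mot.{v, u} K) (hM : Known M)
    (Fam : Set (Family M)) :
    -- (1) the double covers
    (∀ (N : ℕ) (f : MvPolynomial (Fin N) K), IsTwoSpaces (N + 1) (dbl f)) ∧
    -- (2) double covers and hypersurfaces
    (∀ (i : ℤ) (d N : ℕ) (f : MvPolynomial (Fin N) K),
      (Exact Fam i d (i + 1) (dbl f) ↔ Exact Fam i d i (hyper f)) ∧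
      (EulerZero Fam i d (i + 1) (dbl f) ↔ EulerZero Fam i d i (hyper f))) ∧
    -- (3) Q1 in one dimension
    (∀ d : ℕ,
      (ConjDim Fam d ↔
        ∀ (i : ℤ) (f : MvPolynomial (Fin (d + 1)) K), Exact Fam i d (i + 1) (dbl f)) ∧
      (ConjDim Fam d ↔
        ∀ (i : ℤ) (f : MvPolynomial (Fin (d + 1)) K), EulerZero Fam i d (i + 1) (dbl f))) ∧
    -- (4) one degree
    (∀ (i : ℤ) (d : ℕ),
      (VHCDim Fam i d ↔ ∀ f : MvPolynomial (Fin (d + 1)) K, Exact Fam i d (i + 1) (dbl f)) ∧
      (VHCDim Fam i d ↔ ∀ f : MvPolynomial (Fin (d + 1)) K, EulerZero Fam i d (i + 1) (dbl f))) ∧
    -- (5) all dimensions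
    ((∀ d : ℕ, ConjDim Fam d) ↔
      ∀ (i : ℤ) (d N : ℕ) (X : Sch K), IsTwoSpaces N X → Exact Fam i d (i + 1) X) :=
  main K M hM Fam

end Pool.Agent.Results.MP_298761_ag.UnionsOfTwoAffineSpaces
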